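import Pool.Agent.Helper39.Uct.Goals2

set_option linter.style.haveILetI false

/-! Packet QT: quotients of C*-algebras. -/

open scoped ComplexOrder
open Filter Topology

namespace Pool.Agent.Helper42.Uct

open Pool.Agent.Helper39.Uct

section approx

/-- Multiplication by `1 - e` is contractive. -/
theorem sub_mul_le {B : Type} [NonUnitalCStarAlgebra B] (e : B)
    (he : letI := CStarAlgebra.spectralOrder B; 0 ≤ e) (he1 : ‖e‖ ≤ 1) (y : B) :
    ‖y - y * e‖ ≤ ‖y‖ := by
  letI := CStarAlgebra.spectralOrder B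
  haveI := CStarAlgebra.spectralOrderedRing B
  letI : PartialOrder (Unitization ℂ B) := CStarAlgebra.spectralOrder _
  haveI : StarOrderedRing (Unitization ℂ B) := CStarAlgebra.spectralOrderedRing _
  have h0 : 0 ≤ ((e : B) : Unitization ℂ B) := Unitization.inr_nonneg_iff.2 he
  have h1 : ((e : B) : Unitization ℂ B) ≤ 1 := by
    rw [← CStarAlgebra.norm_le_one_iff_of_nonneg _ h0, Unitization.norm_inr]
    exact he1
  have h2 : ‖(1 : Unitization ℂ B) - (e : Unitization ℂ B)‖ ≤ 1 := by
    rw [CStarAlgebra.norm_le_one_iff_of_nonneg _ (sub_nonneg.2 h1)]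
    exact sub_le_self _ h0
  have h3 : ((y - y * e : B) : Unitization ℂ B) =
      (y : Unitization ℂ B) * (1 - (e : Unitization ℂ B)) := by
    rw [mul_sub, mul_one, ← Unitization.inr_mul, ← Unitization.inr_sub]
  calc ‖y - y * e‖ = ‖((y - y * e : B) : Unitization ℂ B)‖ := (Unitization.norm_inr _).symm
    _ = ‖(y : Unitization ℂ B) * (1 - (e : Unitization ℂ B))‖ := by rw [h3]
    _ ≤ ‖(y : Unitization ℂ B)‖ * ‖(1 : Unitization ℂ B) - (e : Unitization ℂ B)‖ :=
        norm_mul_le _ _
    _ ≤ ‖(y : Unitization ℂ B)‖ * 1 := by gcongr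
    _ = ‖y‖ := by rw [mul_one, Unitization.norm_inr]

/-- Approximate units in closed ideals. -/
theorem exists_unit {B : Type} [NonUnitalCStarAlgebra B] (I : Submodule ℂ B)
    (hc : IsClosed (I : Set B)) (hI : ∀ x ∈ I, ∀ b, b * x ∈ I ∧ x * b ∈ I)
    (hs : ∀ x ∈ I, star x ∈ I) (i : B) (hi : i ∈ I) (ε : ℝ) (hε : 0 < ε) :
    ∃ e ∈ I, star e = e ∧ (∀ y : B, ‖y - y * e‖ ≤ ‖y‖) ∧ ‖i - i * e‖ < ε := by
  let S : NonUnitalStarSubalgebra ℂ B :=
    { I with
      mul_mem' := fun {a b} ha _ => (hI a ha b).2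
      star_mem' := fun {a} ha => hs a ha }
  haveI : IsClosed (S : Set B) := hc
  letI iS : NonUnitalCStarAlgebra S := NonUnitalStarSubalgebra.nonUnitalCStarAlgebra S
  letI : PartialOrder S := CStarAlgebra.spectralOrder S
  haveI : StarOrderedRing S := CStarAlgebra.spectralOrderedRing S
  letI : PartialOrder B := CStarAlgebra.spectralOrder B
  haveI : StarOrderedRing B := CStarAlgebra.spectralOrderedRing B
  have hl := CStarAlgebra.increasingApproximateUnit S
  let i' : S := ⟨i, hi⟩
  have h1 : Tendsto (fun e : S => i' * e) (CStarAlgebra.approximateUnit S) (𝓝 i') :=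
    hl.tendsto_mul_left i'
  have h2 : ∀ᶠ e in CStarAlgebra.approximateUnit S, ‖i' * e - i'‖ < ε := by
    have := (Metric.tendsto_nhds.1 h1) ε hε
    filter_upwards [this] with e he
    rwa [dist_eq_norm] at he
  obtain ⟨e, he1, he2, he3⟩ := (h2.and (hl.eventually_nonneg.and hl.eventually_norm)).exists
  have h3 : (0 : B) ≤ (e : B) := by
    obtain ⟨f, hf⟩ := CStarAlgebra.nonneg_iff_eq_star_mul_self.1 he2
    rw [hf]
    exact star_mul_self_nonneg (f : B)
  refine ⟨e, e.2, (IsSelfAdjoint.of_nonneg h3).star_eq, sub_mul_le _ h3 he3, ?_⟩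
  rw [norm_sub_rev]
  exact he1

end approx

section quot

variable {B : Type} [NonUnitalCStarAlgebra B] (I : Submodule ℂ B)

/-- The data of a closed two-sided star-closed ideal. -/
structure IsId : Prop where
  closed : IsClosed (I : Set B)
  ideal : ∀ x ∈ I, ∀ b, b * x ∈ I ∧ x * b ∈ I
  star : ∀ x ∈ I, star x ∈ I

variable {I}

/-- Multiplication on the quotient. -/
noncomputable def qmul (h : IsId I) : (B ⧸ I) → (B ⧸ I) → (B ⧸ I) :=
  Quotient.map₂ (fun x y => x * y) (by
    intro a a' haa b b' hbb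
    have haa' := (Submodule.quotientRel_def I).1 haa
    have hbb' := (Submodule.quotientRel_def I).1 hbb
    apply (Submodule.quotientRel_def I).2
    have h1 := (h.ideal _ hbb' a).1
    have h2 := (h.ideal _ haa' b').2
    have h3 := I.add_mem h1 h2
    rw [mul_sub, sub_mul, sub_add_sub_cancel] at h3
    exact h3)

/-- Star on the quotient. -/
noncomputable def qstar (h : IsId I) : (B ⧸ I) → (B ⧸ I) :=
  Quotient.map (fun x => star x) (by
    intro a a' haa
    have haa' := (Submodule.quotientRel_def I).1 haa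
    apply (Submodule.quotientRel_def I).2
    rw [← star_sub]
    exact h.star _ haa')

/-- The quotient ring. -/
@[reducible] noncomputable def qring (h : IsId I) : NonUnitalRing (B ⧸ I) :=
  { (inferInstance : AddCommGroup (B ⧸ I)) with
    mul := qmul h
    left_distrib := by
      rintro ⟨a⟩ ⟨b⟩ ⟨c⟩
      exact congrArg (Submodule.Quotient.mk (p := I)) (mul_add a b c)
    right_distrib := by
      rintro ⟨a⟩ ⟨b⟩ ⟨c⟩
      exact congrArg (Submodule.Quotient.mk (p := I)) (add_mul a b c)
    zero_mul := by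
      rintro ⟨a⟩
      exact congrArg (Submodule.Quotient.mk (p := I)) (zero_mul a)
    mul_zero := by
      rintro ⟨a⟩
      exact congrArg (Submodule.Quotient.mk (p := I)) (mul_zero a)
    mul_assoc := by
      rintro ⟨a⟩ ⟨b⟩ ⟨c⟩
      exact congrArg (Submodule.Quotient.mk (p := I)) (mul_assoc a b c) }

lemma qnorm_mul (h : IsId I) (x y : B ⧸ I) : ‖qmul h x y‖ ≤ ‖x‖ * ‖y‖ := by
  haveI : IsClosed (I : Set B) := h.closed
  have h1 : ∀ ε : ℝ, 0 < ε → ‖qmul h x y‖ ≤ (‖x‖ + ε) * (‖y‖ + ε) := by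
    intro ε hε
    obtain ⟨a, ha, ha'⟩ := Submodule.Quotient.norm_mk_lt x hε
    obtain ⟨b, hb, hb'⟩ := Submodule.Quotient.norm_mk_lt y hε
    have h2 : qmul h x y = Submodule.Quotient.mk (a * b) := by rw [← ha, ← hb]; rfl
    rw [h2]
    calc ‖(Submodule.Quotient.mk (a * b) : B ⧸ I)‖ ≤ ‖a * b‖ := Submodule.Quotient.norm_mk_le _ _
      _ ≤ ‖a‖ * ‖b‖ := norm_mul_le _ _
      _ ≤ _ := by gcongr
  have h2 : Tendsto (fun ε : ℝ => (‖x‖ + ε) * (‖y‖ + ε)) (𝓝[>] 0) (𝓝 ((‖x‖ + 0) * (‖y‖ + 0))) := by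
    apply Tendsto.mono_left _ nhdsWithin_le_nhds
    exact ((continuous_const.add continuous_id).mul (continuous_const.add continuous_id)).tendsto 0
  rw [add_zero, add_zero] at h2
  refine ge_of_tendsto h2 ?_
  filter_upwards [self_mem_nhdsWithin] with ε hε
  exact h1 ε hε

lemma qnorm_cstar (h : IsId I) (x : B ⧸ I) : ‖x‖ * ‖x‖ ≤ ‖qmul h (qstar h x) x‖ := by
  haveI : IsClosed (I : Set B) := h.closed
  obtain ⟨b, rfl⟩ := Submodule.Quotient.mk_surjective I x
  have h0 : qmul h (qstar h (Submodule.Quotient.mk b)) (Submodule.Quotient.mk b) =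
      Submodule.Quotient.mk (star b * b) := rfl
  rw [h0]
  apply le_of_forall_pos_lt_add
  intro ε hε
  obtain ⟨c, hc, hc'⟩ := Submodule.Quotient.norm_mk_lt
    (Submodule.Quotient.mk (star b * b) : B ⧸ I) (half_pos hε)
  have hi : star b * b - c ∈ I := by
    rw [← Submodule.Quotient.eq, hc]
  obtain ⟨e, he, hes, he1, he2⟩ := exists_unit I h.closed h.ideal h.star _ hi (ε / 2) (half_pos hε)
  have h1 : ‖(Submodule.Quotient.mk b : B ⧸ I)‖ ≤ ‖b - b * e‖ := by
    have h2 : (Submodule.Quotient.mk b : B ⧸ I) = Submodule.Quotient.mk (b - b * e) := by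
      rw [Submodule.Quotient.eq]
      rw [sub_sub_cancel]
      exact (h.ideal e he b).1
    rw [h2]
    exact Submodule.Quotient.norm_mk_le _ _
  set w : B := star b * (b - b * e) with hw
  have h2 : star (b - b * e) * (b - b * e) = star (star w - star w * e) := by
    have h6 : ∀ v : B, star (star v - star v * e) = v - e * v := by
      intro v
      rw [star_sub, star_mul, star_star, hes]
    rw [h6, star_sub, star_mul, hes, sub_mul, mul_assoc]
  have h3 : ‖b - b * e‖ * ‖b - b * e‖ ≤ ‖w‖ := by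
    rw [← CStarRing.norm_star_mul_self, h2, norm_star]
    exact (he1 (star w)).trans (le_of_eq (norm_star w))
  have h4 : w = (c - c * e) + ((star b * b - c) - (star b * b - c) * e) := by
    rw [hw, mul_sub, ← mul_assoc, sub_mul]
    abel
  have h5 : ‖w‖ ≤ ‖c‖ + ‖(star b * b - c) - (star b * b - c) * e‖ := by
    rw [h4]
    exact (norm_add_le _ _).trans (by gcongr; exact he1 c)
  calc ‖(Submodule.Quotient.mk b : B ⧸ I)‖ * ‖(Submodule.Quotient.mk b : B ⧸ I)‖
      ≤ ‖b - b * e‖ * ‖b - b * e‖ := by gcongr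
    _ ≤ _ := h3
    _ ≤ _ := h5
    _ < _ := by linarith

/-- The quotient C*-algebra. -/
@[reducible] noncomputable def qalg (h : IsId I) : NonUnitalCStarAlgebra (B ⧸ I) :=
  haveI : IsClosed (I : Set B) := h.closed
  letI n1 : NormedAddCommGroup (B ⧸ I) := inferInstance
  { n1, qring h, (inferInstance : NormedSpace ℂ (B ⧸ I)) with
    norm_mul_le := qnorm_mul h
    star := qstar h
    star_involutive := by
      rintro ⟨a⟩
      exact congrArg (Submodule.Quotient.mk (p := I)) (star_star a)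
    star_mul := by
      rintro ⟨a⟩ ⟨b⟩
      exact congrArg (Submodule.Quotient.mk (p := I)) (star_mul a b)
    star_add := by
      rintro ⟨a⟩ ⟨b⟩
      exact congrArg (Submodule.Quotient.mk (p := I)) (star_add a b)
    star_smul := by
      rintro c ⟨a⟩
      exact congrArg (Submodule.Quotient.mk (p := I)) (star_smul c a)
    smul_assoc := by
      rintro c ⟨a⟩ ⟨b⟩
      exact congrArg (Submodule.Quotient.mk (p := I)) (smul_mul_assoc c a b)
    smul_comm := by
      rintro c ⟨a⟩ ⟨b⟩
      exact congrArg (Submodule.Quotient.mk (p := I)) (mul_smul_comm c a b).symm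
    complete := (inferInstance : CompleteSpace (B ⧸ I)).complete
    norm_mul_self_le := qnorm_cstar h }

end quot

/-- Packet QT. -/
theorem stmtQT : S_QT := by
  intro B _ I hc hI hs
  have h : IsId I := ⟨hc, hI, hs⟩
  letI := qalg h
  refine ⟨B ⧸ I, qalg h, 
    { toFun := fun b => Submodule.Quotient.mk b
      map_smul' := fun c b => rfl
      map_zero' := rfl
      map_add' := fun a b => rfl
      map_mul' := fun a b => rfl
      map_star' := fun a => rfl }, Submodule.Quotient.mk_surjective I, ?_⟩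
  intro b
  exact Submodule.Quotient.mk_eq_zero I

end Pool.Agent.Helper42.Uct
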