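import Pool.Agent.Helper39.Uct.Goals2

/-! Packet L2: assembly of the averaging lemma. -/

open scoped ComplexOrder

namespace Pool.Agent.Helper42.Uct

open Pool.Agent.Helper39.Uct Pool.Agent.Helper39.Uct.Fib

section restr

variable {Q : Type} [Group Q] {B : Type} [NonUnitalCStarAlgebra B] (G : Fib Q B)

lemma star_mul_mem {q : Q} {b b' : B} (hb : b ∈ G.fib q) (hb' : b' ∈ G.fib q) :
    star b * b' ∈ G.fib 1 := by
  have h := G.mul_mem _ _ _ _ (G.star_mem _ _ hb) hb'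
  rwa [inv_mul_cancel] at h

lemma star_mul_mul_mem {q : Q} {b b' c : B} (hb : b ∈ G.fib q) (hb' : b' ∈ G.fib q)
    (hc : c ∈ G.fib 1) : star b * c * b' ∈ G.fib 1 := by
  have h := G.mul_mem _ _ _ _ (G.mul_mem _ _ _ _ (G.star_mem _ _ hb) hc) hb'
  rwa [mul_one, inv_mul_cancel] at h

variable {G}

lemma St_congr {φ ψ : G.Pt} (h : ∀ c ∈ G.fib 1, ψ c = φ c) {q : Q} :
    q ∈ G.St ψ ↔ q ∈ G.St φ := by
  unfold Fib.St
  simp only [Set.mem_ofPred_eq]
  constructor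
  · rintro ⟨⟨b, hb, h1⟩, h2⟩
    refine ⟨⟨b, hb, by rwa [← h _ (star_mul_mem G hb hb)]⟩, ?_⟩
    intro b hb c hc
    rw [← h _ (star_mul_mul_mem G hb hb hc), ← h _ hc, ← h _ (star_mul_mem G hb hb)]
    exact h2 b hb c hc
  · rintro ⟨⟨b, hb, h1⟩, h2⟩
    refine ⟨⟨b, hb, by rwa [h _ (star_mul_mem G hb hb)]⟩, ?_⟩
    intro b hb c hc
    rw [h _ (star_mul_mul_mem G hb hb hc), h _ hc, h _ (star_mul_mem G hb hb)]
    exact h2 b hb c hc

lemma Cm_congr {φ ψ : G.Pt} (h : ∀ c ∈ G.fib 1, ψ c = φ c) {q a : Q} :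
    G.Cm ψ q a ↔ G.Cm φ q a := by
  unfold Fib.Cm
  refine and_congr_right (fun hqa => ?_)
  refine forall_congr' (fun b => forall_congr' (fun hb => forall_congr' (fun b' =>
    forall_congr' (fun hb' => ?_))))
  have h1 : b * b' - b' * b ∈ G.fib (q * a) := by
    refine (G.fib (q * a)).sub_mem (G.mul_mem _ _ _ _ hb hb') ?_
    rw [hqa]
    exact G.mul_mem _ _ _ _ hb' hb
  rw [h _ (star_mul_mem G h1 h1)]

lemma DD_congr {φ ψ : G.Pt} (h : ∀ c ∈ G.fib 1, ψ c = φ c) (L : Subgroup Q) {q : Q} :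
    q ∈ G.DD ψ L ↔ q ∈ G.DD φ L := by
  unfold Fib.DD
  simp only [Set.mem_ofPred_eq]
  rw [St_congr h]
  refine and_congr_right (fun _ => forall_congr' (fun l => forall_congr' (fun _ => Cm_congr h)))

end restr

/-- Packet L2. -/
theorem stmtL2 : S_INV → S_GEN → S_VAN → S_BES → S_L2 := by
  classical
  intro hINV hGEN hVAN hBES Q _ B _ G hG d L hd hdsa hFG hTf hFix hgen s b hb h1s
  by_cases hc0 : b 1 = 0
  · rw [hc0, norm_zero]; exact norm_nonneg _
  -- the chosen elements of `L`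
  have hch : ∀ q : Q, ∃ l : Q, (∃ l ∈ L, q * l ≠ l * q) → l ∈ L ∧ q * l ≠ l * q := by
    intro q
    by_cases h : ∃ l ∈ L, q * l ≠ l * q
    · obtain ⟨l, hl, hl'⟩ := h
      exact ⟨l, fun _ => ⟨hl, hl'⟩⟩
    · exact ⟨1, fun h' => absurd h' h⟩
  choose l₀ hl₀ using hch
  have hxq : ∀ q ∈ s, b q ∈ G.fib q := by
    intro q hq
    have h1 : {x | ∃ y ∈ G.fib q, x = d * y * d} ⊆ (G.fib q : Set B) := by
      rintro x ⟨y, hy, rfl⟩
      have := G.mul_mem _ _ _ _ (G.mul_mem _ _ _ _ hd hy) hd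
      rwa [one_mul, mul_one] at this
    exact (closure_minimal h1 (G.closed q)) (hb q hq)
  have hM0 : ∀ q ∈ s, b q ≠ 0 → q ∈ G.M0 d := by
    intro q hq hne
    by_contra hcon
    apply hne
    have h1 : {x | ∃ y ∈ G.fib q, x = d * y * d} ⊆ ({0} : Set B) := by
      rintro x ⟨y, hy, rfl⟩
      by_contra h2
      exact hcon ⟨y, hy, h2⟩
    exact (closure_minimal h1 isClosed_singleton) (hb q hq)
  set S : ℝ := ∑ q ∈ s.erase 1, ‖b q‖ with hS
  have hS0 : 0 ≤ S := Finset.sum_nonneg (fun _ _ => norm_nonneg _)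
  have key : ∀ ε : ℝ, 0 < ε → ‖b 1‖ ≤ ‖∑ q ∈ s, b q‖ + 2 * ε := by
    intro ε hε
    obtain ⟨n, hn⟩ := exists_nat_ge ((S / ε) ^ 2 + 1)
    have hn1 : (S / ε) ^ 2 ≤ (n : ℝ) := by linarith
    have hn0 : (0 : ℝ) < (n : ℝ) := by
      have := sq_nonneg (S / ε)
      linarith
    have hsq : S ≤ ε * Real.sqrt n := by
      have h1 : S / ε ≤ Real.sqrt n := Real.le_sqrt_of_sq_le hn1
      rw [div_le_iff₀ hε] at h1
      linarith [mul_comm (Real.sqrt n) ε]
    set F : Finset Q := s.erase 1 ∪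
      (s.filter (fun q => q ∈ G.M0 d ∧ ∃ l ∈ L, q * l ≠ l * q)).biUnion
        (fun q => ((Finset.Icc (-(n : ℤ)) n).erase 0).image
          (fun j => ((l₀ q)⁻¹ * (q * l₀ q * q⁻¹)) ^ j)) with hF
    have hF1 : (1 : Q) ∉ F := by
      rw [hF, Finset.mem_union, not_or]
      refine ⟨by simp, ?_⟩
      rw [Finset.mem_biUnion]
      rintro ⟨q, hq, hq'⟩
      rw [Finset.mem_filter] at hq
      rw [Finset.mem_image] at hq'
      obtain ⟨j, hj, hj1⟩ := hq'
      rw [Finset.mem_erase] at hj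
      obtain ⟨hl1, hl2⟩ := hl₀ q hq.2.2
      have hkL : (l₀ q)⁻¹ * (q * l₀ q * q⁻¹) ∈ L :=
        L.mul_mem (L.inv_mem hl1) (hFix.2 q hq.2.1 _ hl1)
      have hj2 : ((l₀ q)⁻¹ * (q * l₀ q * q⁻¹)) ^ j.natAbs = 1 := by
        rcases Int.natAbs_eq j with h | h
        · rw [h, zpow_natCast] at hj1; exact hj1
        · rw [h, zpow_neg, zpow_natCast, inv_eq_one] at hj1; exact hj1
      have hk1 := hTf.2 _ hkL j.natAbs (by rw [Ne, Int.natAbs_eq_zero]; exact hj.1) hj2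
      apply hl2
      have h3 : q * l₀ q * q⁻¹ = l₀ q := by
        have := congrArg (fun x => l₀ q * x) hk1
        simpa using this
      rw [mul_inv_eq_iff_eq_mul] at h3
      exact h3
    obtain ⟨φ, hφ1, hφ2, hφ3⟩ := hGEN Q B G hG d L hd hdsa hgen (b 1) (hb 1 h1s) hc0 ε hε F hF1
    have hSt : ∀ l ∈ L, l ∈ G.St φ := fun l hl => hFix.1 l hl φ hφ2
    obtain ⟨ψ, hψ1, hψ2⟩ := hINV Q B G hG L hFG hTf.1 φ hSt
    have hStψ : ∀ l ∈ L, l ∈ G.St ψ := fun l hl => (St_congr hψ1).2 (hSt l hl)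
    have hDD : ∀ q ∈ F, q ∉ G.DD ψ L := fun q hq h => hφ3 q hq ((DD_congr hψ1 L).1 h)
    have hest : ∀ q ∈ s.erase 1, Real.sqrt n * ‖ψ (b q)‖ ≤ ‖b q‖ := by
      intro q hq
      have hqs := Finset.mem_of_mem_erase hq
      by_cases hbq : b q = 0
      · rw [hbq]
        have : ψ (0 : B) = 0 := map_zero ψ.toFun
        rw [this, norm_zero, norm_zero, mul_zero]
      have hqF : q ∈ F := by rw [hF]; exact Finset.mem_union_left _ hq
      by_cases hcase : q ∉ G.St ψ ∨ ∀ l ∈ L, q * l = l * q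
      · rw [hVAN Q B G hG L hTf.1 ψ hStψ hψ2 q (hDD q hqF) hcase (b q) (hxq q hqs), norm_zero,
          mul_zero]
        exact norm_nonneg _
      · rw [not_or, not_not] at hcase
        obtain ⟨hc1, hc2⟩ := hcase
        push Not at hc2
        have hqM := hM0 q hqs hbq
        obtain ⟨hl1, hl2⟩ := hl₀ q hc2
        have h3 := hBES Q B G hG L hTf ψ hStψ hψ2 q hc1 (hFix.2 q hqM) (l₀ q) hl1 n (by
          intro j hj0 hjn
          apply hDD
          rw [hF]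
          apply Finset.mem_union_right
          rw [Finset.mem_biUnion]
          refine ⟨q, Finset.mem_filter.2 ⟨hqs, hqM, hc2⟩, ?_⟩
          rw [Finset.mem_image]
          refine ⟨j, ?_, rfl⟩
          rw [Finset.mem_erase, Finset.mem_Icc]
          exact ⟨hj0, (abs_le.1 hjn).1, (abs_le.1 hjn).2⟩) (b q) (hxq q hqs)
        have h4 : (Real.sqrt n * ‖ψ (b q)‖) ^ 2 ≤ ‖b q‖ ^ 2 := by
          rw [mul_pow, Real.sq_sqrt hn0.le]
          exact h3
        exact (pow_le_pow_iff_left₀ (by positivity) (norm_nonneg _) two_ne_zero).1 h4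
    have hsum : ∑ q ∈ s.erase 1, ‖ψ (b q)‖ ≤ ε := by
      have h1 : Real.sqrt n * ∑ q ∈ s.erase 1, ‖ψ (b q)‖ ≤ S := by
        rw [Finset.mul_sum, hS]
        exact Finset.sum_le_sum hest
      have h2 : 0 < Real.sqrt n := Real.sqrt_pos.2 hn0
      have h3 : Real.sqrt n * ∑ q ∈ s.erase 1, ‖ψ (b q)‖ ≤ Real.sqrt n * ε := by
        rw [mul_comm (Real.sqrt n) ε]; exact h1.trans hsq
      exact le_of_mul_le_mul_left h3 h2
    have hψc : ψ (b 1) = ψ (∑ q ∈ s, b q) - ∑ q ∈ s.erase 1, ψ (b q) := by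
      have h1 : ψ (∑ q ∈ s, b q) = ∑ q ∈ s, ψ (b q) := map_sum ψ.toFun _ _
      rw [h1, ← Finset.add_sum_erase s (fun q => ψ (b q)) h1s]
      ring
    calc ‖b 1‖ ≤ ‖φ (b 1)‖ + ε := by linarith
      _ = ‖ψ (b 1)‖ + ε := by rw [hψ1 _ (hxq 1 h1s)]
      _ ≤ (‖ψ (∑ q ∈ s, b q)‖ + ‖∑ q ∈ s.erase 1, ψ (b q)‖) + ε := by
          rw [hψc]
          have := norm_sub_le (ψ (∑ q ∈ s, b q)) (∑ q ∈ s.erase 1, ψ (b q))
          linarith
      _ ≤ (‖∑ q ∈ s, b q‖ + ε) + ε := by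
          have h1 := ψ.bound (∑ q ∈ s, b q)
          have h2 := (norm_sum_le (s.erase 1) (fun q => ψ (b q))).trans hsum
          linarith
      _ = _ := by ring
  apply le_of_forall_pos_le_add
  intro ε hε
  have := key (ε / 2) (half_pos hε)
  linarith

end Pool.Agent.Helper42.Uct
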