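import Pool.Agent.Helper39.Uct.Goals2

/-! Packet RC/HT: ranges of *-homomorphisms are closed; hereditary embeddings compose. -/

set_option linter.style.haveILetI false

open scoped ComplexOrder
open Filter Topology

namespace Pool.Agent.Helper42.Uct

open Pool.Agent.Helper39.Uct

lemma hcont {A B : Type} [NonUnitalCStarAlgebra A] [NonUnitalCStarAlgebra B]
    (f : A →⋆ₙₐ[ℂ] B) : Continuous f := by
  refine AddMonoidHomClass.continuous_of_bound f 1 (fun x => ?_)
  rw [one_mul]
  exact NonUnitalStarAlgHom.norm_apply_le f x

/-- Packet RC. -/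
theorem stmtRC (hQT : S_QT) : S_RC := by
  intro A B _ _ f
  have hf : Continuous f := hcont f
  let I : Submodule ℂ A :=
    { carrier := {a | f a = 0}
      add_mem' := fun {a b} ha hb => by
        simp only [Set.mem_ofPred_eq] at *
        rw [map_add, ha, hb, add_zero]
      zero_mem' := map_zero f
      smul_mem' := fun c {a} ha => by
        simp only [Set.mem_ofPred_eq] at *
        rw [map_smul, ha, smul_zero] }
  have hI : ∀ a, a ∈ I ↔ f a = 0 := fun a => Iff.rfl
  obtain ⟨B', iB', π, hπ, hker⟩ := hQT A I (isClosed_eq hf continuous_const)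
    (fun x hx b => by
      rw [hI] at hx
      rw [hI, hI, map_mul, map_mul, hx, mul_zero, zero_mul]
      exact ⟨rfl, rfl⟩)
    (fun x hx => by
      rw [hI] at hx
      rw [hI, map_star, hx, star_zero])
  have hg : ∀ a a', π a = π a' → f a = f a' := by
    intro a a' h
    have h1 : π (a - a') = 0 := by rw [map_sub, h, sub_self]
    have h2 := (hker _).1 h1
    rw [hI, map_sub, sub_eq_zero] at h2
    exact h2
  let s := Function.surjInv hπ
  have hs : ∀ x, π (s x) = x := Function.surjInv_eq hπ
  let g : B' →⋆ₙₐ[ℂ] B :=
    { toFun := fun x => f (s x)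
      map_smul' := fun c x => by
        rw [MonoidHom.id_apply, ← map_smul]
        apply hg
        rw [hs, map_smul, hs]
      map_zero' := by
        rw [← map_zero f]
        apply hg
        rw [hs, map_zero]
      map_add' := fun x y => by
        rw [← map_add]
        apply hg
        rw [hs, map_add, hs, hs]
      map_mul' := fun x y => by
        rw [← map_mul]
        apply hg
        rw [hs, map_mul, hs, hs]
      map_star' := fun x => by
        rw [← map_star]
        apply hg
        rw [hs, map_star, hs] }
  have hgπ : ∀ a, g (π a) = f a := fun a => hg _ _ (hs _)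
  have hinj : Function.Injective g := by
    rw [injective_iff_map_eq_zero]
    intro x hx
    rw [← hs x]
    exact (hker _).2 hx
  have hiso : Isometry g := NonUnitalStarAlgHom.isometry g hinj
  have hr : Set.range f = Set.range g := by
    ext y
    constructor
    · rintro ⟨a, rfl⟩
      exact ⟨π a, hgπ a⟩
    · rintro ⟨x, rfl⟩
      exact ⟨s x, rfl⟩
  rw [hr]
  exact hiso.isClosedEmbedding.isClosed_range

/-- Packet HT. -/
theorem stmtHT : S_HT := by
  intro H₁ H₂ B _ _ _ i j hi hj
  refine ⟨hj.1.comp hi.1, ?_⟩
  intro x y a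
  have hinj : Function.Injective (j.comp i) := hj.1.comp hi.1
  have hcl : IsClosed (Set.range (j.comp i)) :=
    (NonUnitalStarAlgHom.isometry (j.comp i) hinj).isClosedEmbedding.isClosed_range
  have hc : Continuous (j.comp i) := hcont (j.comp i)
  letI : PartialOrder H₁ := CStarAlgebra.spectralOrder H₁
  haveI : StarOrderedRing H₁ := CStarAlgebra.spectralOrderedRing H₁
  have hl := CStarAlgebra.increasingApproximateUnit H₁
  have h1 : Tendsto (fun e : H₁ => (j.comp i) (x * e) * a * (j.comp i) (e * y))
      (CStarAlgebra.approximateUnit H₁) (𝓝 ((j.comp i) x * a * (j.comp i) y)) := by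
    apply Tendsto.mul
    · apply Tendsto.mul_const
      exact (hc.tendsto x).comp (hl.tendsto_mul_left x)
    · exact (hc.tendsto y).comp (hl.tendsto_mul_right y)
  refine hcl.mem_of_tendsto h1 (Eventually.of_forall ?_)
  intro e
  obtain ⟨t, ht⟩ := hj.2 (i e) (i e) a
  obtain ⟨u, hu⟩ := hi.2 x y t
  refine ⟨u, ?_⟩
  show j (i u) = j (i (x * e)) * a * j (i (e * y))
  rw [hu, map_mul, map_mul, ht, map_mul, map_mul, map_mul, map_mul]
  simp only [mul_assoc]

end Pool.Agent.Helper42.Uct
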